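import Pool.Agent.H46.CUBE.EPW

/-!
# Cube project (MP_47888e_al), block TAME, module CPX: complexity of the matrices `A` and `B`
-/

set_option autoImplicit false

open Finset MvPolynomial Pool.CM

namespace Pool.CUBE

namespace CPX

variable {A : Type} [CommRing A] {n : ℕ}

theorem coefIn_pow {S : ℕ → AddSubgroup A} (hS : Filt S) {p : ℕ} {f : Poly n A}
    (hf : CoefIn (S p) f) (j : ℕ) : CoefIn (S (p * j)) (f ^ j) := by
  induction j with
  | zero =>
    intro b
    rw [pow_zero, mul_zero, ← C_1, coeff_C]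
    split_ifs
    · exact hS.one
    · exact (S 0).zero_mem
  | succ j ih =>
    rw [pow_succ, mul_add, mul_one]
    exact EPW.coefIn_mul hS ih hf

theorem coefIn_mono {S : ℕ → AddSubgroup A} (hS : Filt S) {a b : ℕ} (h : a ≤ b) {f : Poly n A}
    (hf : CoefIn (S a) f) : CoefIn (S b) f := fun x => hS.mono a b h (hf x)

theorem pb_monomial (p : ℕ) (a : Fin (n + 1) →₀ ℕ) (c : A) :
    pb p (monomial a c : Poly n A) =
      monomial (p • a + Finsupp.equivFunOnFinite.symm fun _ => p - 1) c := by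
  rw [pb, expand_monomial, Zp, monomial_mul, mul_one]

theorem pb_sum (p : ℕ) (g : Poly n A) :
    pb p g = ∑ a ∈ g.support,
      monomial (p • a + Finsupp.equivFunOnFinite.symm fun _ => p - 1) (coeff a g) := by
  conv_lhs => rw [← support_sum_monomial_coeff g]
  rw [pb, map_sum, Finset.sum_mul]
  refine Finset.sum_congr rfl fun a _ => ?_
  rw [← pb, pb_monomial]

theorem coefIn_pb {G : AddSubgroup A} (p : ℕ) {g : Poly n A} (hg : CoefIn G g) :
    CoefIn G (pb p g) := by
  intro b
  rw [pb_sum, coeff_sum]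
  exact sum_mem fun a _ => EPW.coefIn_monomial _ (hg a) b

theorem wt_pb {p N : ℕ} (hp : 0 < p) {g : Poly n A} (hg : Wt N g) : Wt (p * N) (pb p g) := by
  classical
  intro b hb
  rw [pb_sum, coeff_sum] at hb
  obtain ⟨a, ha, h⟩ := Finset.exists_ne_zero_of_sum_ne_zero hb
  rw [coeff_monomial] at h
  split_ifs at h with e
  · have h1 := hg a h
    rw [← e, map_add, map_nsmul, ← h1]
    have h2 : Finsupp.degree (Finsupp.equivFunOnFinite.symm fun _ : Fin (n + 1) => p - 1) =
        (n + 1) * (p - 1) := by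
      rw [Finsupp.degree_eq_sum]
      simp
    rw [h2]
    obtain ⟨q, rfl⟩ : ∃ q, p = q + 1 := ⟨p - 1, by omega⟩
    rw [Nat.add_sub_cancel, smul_eq_mul]
    ring
  · exact absurd rfl h

theorem wt_mul_hom {N d : ℕ} {f h : Poly n A} (hf : Wt N f) (hh : h.IsHomogeneous d) :
    Wt (N + d) (f * h) := by
  classical
  intro b hb
  rw [coeff_mul] at hb
  obtain ⟨x, hx, h1⟩ := Finset.exists_ne_zero_of_sum_ne_zero hb
  have h2 : coeff x.1 f ≠ 0 := fun e => h1 (by rw [e, zero_mul])
  have h3 : coeff x.2 h ≠ 0 := fun e => h1 (by rw [e, mul_zero])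
  have h4 := hf _ h2
  have h5 := hh h3
  have h6 : Finsupp.degree x.2 = d := by
    rw [← h5]
    exact DFunLike.congr_fun (Finsupp.degree_eq_weight_one (σ := Fin (n + 1)) (R := ℕ)) x.2
  rw [← Finset.HasAntidiagonal.mem_antidiagonal.1 hx, map_add, ← h4, ← h6]
  ring

/-- coordinates of a polynomial with levels at most `T` -/
theorem co_mem {N : Type} [Fintype N] [DecidableEq N] {P : Poly n A} {D : ℕ} {b : N → Poly n A}
    {co : Poly n A →ₗ[A] (N → A)} {S : ℕ → AddSubgroup A} (hmono : ∀ a b, a ≤ b → S a ≤ S b)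
    (hc : Ctl P D b co S) {T k : ℕ} {g : Poly n A} (hg : CoefIn (S k) g)
    (hw : ∀ a, coeff a g ≠ 0 → ∃ t, t ≤ T ∧ a.degree + (n + 1) = D * t) (j : N) :
    co g j ∈ S (k + T + 1) := by
  classical
  rw [← support_sum_monomial_coeff g, map_sum, Finset.sum_apply]
  refine sum_mem fun a ha => ?_
  obtain ⟨t, ht, h⟩ := hw a (mem_support_iff.1 ha)
  have h1 := (hc t k (monomial a (coeff a g)) (by
    intro b hb
    rw [coeff_monomial] at hb
    split_ifs at hb with e
    · rw [← e, h]
    · exact absurd rfl hb) (EPW.coefIn_monomial _ (hg a))).1 j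
  exact hmono _ _ (by omega) h1

end CPX

theorem CPX_proof (CTL : CTLStmt) (EEF : EEFStmt) (GAM : GAMStmt) (RHB : RHBStmt) : CPXStmt := by
  classical
  intro X E _ _ A hA n D hD P hP hR N _ _ b l co hco M hM
  obtain ⟨Cx, c, hCx⟩ := CTL X E A hA n D hD P hP hR N b l co hco ∅
  have hG := GAM X E A hA n M hM
  refine ⟨c * (2 * M + n + 3), ((hCx.and hG).and (Idx.Ev.large (n + 1))).mono fun i h => ?_⟩
  obtain ⟨⟨⟨hcx, -, hP1, hPp, hb1, hbp, hc1, hc2⟩, -, -, hg3, hg4, -⟩, hpn⟩ := h
  have hp2 : 2 ≤ X.p i := (X.hp i).two_le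
  have hCI : CInt A i P := fun a => hcx.O 1 _ (hP1 a)
  obtain ⟨hEh, -, -, -, -, hE6⟩ := EEF X E A hA i n D P hP hCI
  have hEc := hE6 (Cx i) c hcx hP1 hPp
  have hF : Filt (Cx i) := ⟨hcx.mono, hcx.one, hcx.mul⟩
  have key : ∀ x, x ∈ Cx i (X.p i * (2 * M + n + 3)) → x ∈ A.t i (c * (2 * M + n + 3) * X.p i) := by
    intro x hx
    have := hcx.t (2 * M + n + 3) x hx
    rwa [mul_comm] at this
  refine ⟨fun a j => ?_, fun a j => ?_⟩
  · -- the matrix B
    apply key
    obtain ⟨hr1, hr2⟩ := RHB.2.2.2 n E (Cx i) (X.p i) D M (l j) 1 (gam E (X.p i)) P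
      (EE (X.p i) (A.phi i) P) (b j) hp2 hD hP hEh hF (hg3 (Cx i) c hcx) hP1 hEc (hco.l1 j).1
      (by have := (hco.l1 j).2; omega) (hco.lb j) (hb1 j)
    have h1 := CPX.co_mem (S := fun m => Cx i (X.p i * m)) (T := M) (k := M + 2)
      (fun a b hab => hcx.mono _ _ (Nat.mul_le_mul_left _ hab)) hc2
      (g := rho0 (X.p i) D M (gam E (X.p i)) P (EE (X.p i) (A.phi i) P) (b j))
      (CPX.coefIn_mono hF (by
        have : X.p i * (M + 2) = X.p i * (M + 1) + X.p i := by ring
        omega) hr1)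
      (fun a ha => by
        obtain ⟨t, -, h2, h3⟩ := hr2 a ha
        exact ⟨t, h2, h3⟩) a
    exact hcx.mono _ _ (Nat.mul_le_mul_left _ (by omega)) h1
  · -- the matrix A
    apply key
    have hpos : 0 < X.p i := (X.hp i).pos
    have hwb : Wt (D * l j) (map (A.phi i) (b j)) := by
      intro x hx
      rw [coeff_map] at hx
      exact hco.lb j x fun e => hx (by rw [e, map_zero])
    have hterm : ∀ k ∈ range M,
        CoefIn (Cx i (X.p i * M)) (cc E (X.p i) n (l j) k •
          (pb (X.p i) (map (A.phi i) (b j)) * EE (X.p i) (A.phi i) P ^ k)) ∧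
        Wt (D * (X.p i * (l j + k))) (cc E (X.p i) n (l j) k •
          (pb (X.p i) (map (A.phi i) (b j)) * EE (X.p i) (A.phi i) P ^ k)) := by
      intro k hk
      have hk' := mem_range.1 hk
      have h1 := EPW.coefIn_mul hF (CPX.coefIn_pb (X.p i) (hbp j)) (CPX.coefIn_pow hF hEc k)
      have h2 := CPX.wt_mul_hom (CPX.wt_pb hpos hwb) (hEh.pow k)
      constructor
      · intro x
        rw [coeff_smul, smul_eq_mul]
        have h3 := hcx.mul _ _ _ _ (hg4 (Cx i) c hcx (l j) (hco.l1 j).1 (hco.l1 j).2 k hk') (h1 x)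
        refine hcx.mono _ _ ?_ h3
        have : X.p i * (k + 1) ≤ X.p i * M := Nat.mul_le_mul_left _ (by omega)
        have e : X.p i * (k + 1) = X.p i * k + X.p i := by ring
        omega
      · intro x hx
        rw [coeff_smul, smul_eq_mul] at hx
        have h3 := h2 x fun e => hx (by rw [e, mul_zero])
        rw [h3]
        ring
    have h1 := CPX.co_mem (S := Cx i) (T := X.p i * (n + 1 + M)) (k := X.p i * M) hcx.mono hc1
      (g := yE (X.p i) M (l j) (A.phi i) P (map (A.phi i) (b j)))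
      (by
        intro x
        rw [yE, coeff_sum]
        exact sum_mem fun k hk => (hterm k hk).1 x)
      (by
        intro x hx
        rw [yE, coeff_sum] at hx
        obtain ⟨k, hk, h2⟩ := Finset.exists_ne_zero_of_sum_ne_zero hx
        refine ⟨X.p i * (l j + k), Nat.mul_le_mul_left _ ?_, (hterm k hk).2 x h2⟩
        have := mem_range.1 hk
        have := (hco.l1 j).2
        omega) a
    refine hcx.mono _ _ ?_ h1
    have e : X.p i * (2 * M + n + 3) = X.p i * M + X.p i * (n + 1 + M) + 2 * X.p i := by ring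
    omega

end Pool.CUBE
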