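import Pool.Agent.H41.CUBE.TStmts

/-!
# Cube project (MP_47888e_al), block TAME, module EPW: weight, base change and coefficients of `e_P`
-/

set_option autoImplicit false

open Finset MvPolynomial

namespace Pool.CUBE

namespace EPW

variable {A : Type} [CommRing A]

theorem coefIn_lin {n n' : ℕ} {G : AddSubgroup A} (L : Poly n A →+ Poly n' A)
    (h : ∀ a, ∀ c ∈ G, CoefIn G (L (monomial a c))) {g : Poly n A} (hg : CoefIn G g) :
    CoefIn G (L g) := by
  intro b
  rw [← support_sum_monomial_coeff g, map_sum, coeff_sum]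
  exact sum_mem fun a _ => h a _ (hg a) b

theorem coefIn_monomial {n : ℕ} {G : AddSubgroup A} (a : Fin (n + 1) →₀ ℕ) {c : A} (hc : c ∈ G) :
    CoefIn G (monomial a c : Poly n A) := by
  intro b
  rw [coeff_monomial]
  split_ifs
  · exact hc
  · exact G.zero_mem

theorem coefIn_mul {n : ℕ} {S : ℕ → AddSubgroup A} (hS : Filt S) {k l : ℕ} {f g : Poly n A}
    (hf : CoefIn (S k) f) (hg : CoefIn (S l) g) : CoefIn (S (k + l)) (f * g) := by
  intro b
  rw [coeff_mul]
  exact sum_mem fun x _ => hS.mul _ _ _ _ (hf _) (hg _)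

theorem faceP_monomial {n : ℕ} (a : Fin (n + 2) →₀ ℕ) (c : A) :
    faceP (monomial a c : Poly (n + 1) A) =
      if a 0 = 0 then monomial (Finsupp.tail a) c else 0 := by
  unfold faceP
  rw [aeval_monomial, Finsupp.prod_fintype _ _ (fun i => pow_zero _), Fin.prod_univ_succ]
  simp only [Fin.cases_zero, Fin.cases_succ]
  split_ifs with h
  · rw [h, pow_zero, one_mul, monomial_eq, Finsupp.prod_fintype _ _ (fun i => pow_zero _)]
    rfl
  · rw [zero_pow h, zero_mul, mul_zero]

theorem faceP_map {n : ℕ} {B : Type} [CommRing B] (f : A →+* B) (P : Poly (n + 1) A) :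
    faceP (map f P) = map f (faceP P) := by
  induction P using MvPolynomial.induction_on with
  | C a => simp [faceP]
  | add p q hp hq => simp only [faceP, map_add] at hp hq ⊢; rw [hp, hq]
  | mul_X p i hp =>
    simp only [faceP, map_mul, map_X, aeval_X] at hp ⊢
    rw [hp]
    congr 1
    refine Fin.cases ?_ (fun j => ?_) i <;> simp

theorem pderiv_map' {n : ℕ} {B : Type} [CommRing B] (f : A →+* B) (P : Poly n A)
    (i : Fin (n + 1)) : pderiv i (map f P) = map f (pderiv i P) := by
  rw [MvPolynomial.pderiv_map]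

theorem faceP_hom {n D : ℕ} {P : Poly (n + 1) A} (hP : P.IsHomogeneous D) :
    (faceP P).IsHomogeneous D := by
  have h := hP.aeval (Fin.cases 0 X : Fin (n + 2) → Poly n A) (n := 1) (fun i => by
    refine Fin.cases ?_ (fun j => ?_) i
    · exact isHomogeneous_zero _ _ _
    · exact isHomogeneous_X _ _)
  rw [one_mul] at h
  exact h

theorem eP_hom {D : ℕ} : ∀ (n : ℕ) (P : Poly n A), P.IsHomogeneous D →
    (eP D n P).IsHomogeneous ((D - 1) * (n + 1))
  | 0, P, _ => by
    unfold eP
    apply isHomogeneous_monomial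
    rw [Finsupp.degree_single]
    ring
  | n + 1, P, hP => by
    unfold eP
    have h1 : (pderiv 0 P).IsHomogeneous (D - 1) := hP.pderiv
    have h2 : (rename Fin.succ (eP D n (faceP P)) : Poly (n + 1) A).IsHomogeneous
        ((D - 1) * (n + 1)) := (eP_hom n _ (faceP_hom hP)).rename_isHomogeneous
    have h3 := h1.mul h2
    have e : D - 1 + (D - 1) * (n + 1) = (D - 1) * (n + 1 + 1) := by ring
    rwa [e] at h3

theorem eP_map {D : ℕ} {B : Type} [CommRing B] (f : A →+* B) : ∀ (n : ℕ) (P : Poly n A),
    eP D n (map f P) = map f (eP D n P)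
  | 0, P => by
    unfold eP
    rw [coeff_map, map_monomial]
  | n + 1, P => by
    unfold eP
    rw [faceP_map, eP_map f n, pderiv_map', map_mul, map_rename]

theorem eP_coef {D : ℕ} {S : ℕ → AddSubgroup A} (hS : Filt S) : ∀ (n : ℕ) (P : Poly n A),
    CoefIn (S 1) P → CoefIn (S (n + 1)) (eP D n P)
  | 0, P, hP => by
    unfold eP
    exact coefIn_monomial _ (hP _)
  | n + 1, P, hP => by
    unfold eP
    have h1 : CoefIn (S 1) (pderiv 0 P) := by
      refine coefIn_lin (G := S 1)
        (AddMonoidHom.mk' (fun g : Poly (n + 1) A => pderiv (0 : Fin (n + 2)) g)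
          (fun a b => map_add _ a b)) (fun a c hc => ?_) hP
      rw [AddMonoidHom.mk'_apply]
      rw [pderiv_monomial]
      refine coefIn_monomial _ ?_
      rw [mul_comm, ← nsmul_eq_mul]
      exact (S 1).nsmul_mem hc _
    have h2 : CoefIn (S 1) (faceP P) := by
      refine coefIn_lin (G := S 1)
        (AddMonoidHom.mk' (fun g : Poly (n + 1) A => faceP g)
          (fun a b => by unfold faceP; exact map_add _ a b)) (fun a c hc => ?_) hP
      rw [AddMonoidHom.mk'_apply, faceP_monomial]
      split_ifs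
      · exact coefIn_monomial _ hc
      · intro b
        rw [coeff_zero]
        exact (S 1).zero_mem
    have h3 : CoefIn (S (n + 1)) (rename Fin.succ (eP D n (faceP P)) : Poly (n + 1) A) := by
      refine coefIn_lin (G := S (n + 1))
        (AddMonoidHom.mk' (fun g : Poly n A => (rename Fin.succ g : Poly (n + 1) A))
          (fun a b => map_add _ a b)) (fun a c hc => ?_) (eP_coef hS n _ h2)
      rw [AddMonoidHom.mk'_apply, rename_monomial]
      exact coefIn_monomial _ hc
    have h4 := coefIn_mul hS h1 h3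
    rwa [show 1 + (n + 1) = n + 1 + 1 by ring] at h4

end EPW

theorem EPW_proof : EPWStmt := by
  intro A _ n D hD P hP
  refine ⟨?_, fun B _ f => EPW.eP_map f n P, fun S hS h => EPW.eP_coef hS n P h⟩
  intro a ha
  have h := EPW.eP_hom n P hP ha
  have h' : Finsupp.degree a = (D - 1) * (n + 1) := by
    rw [← h]
    exact DFunLike.congr_fun (Finsupp.degree_eq_weight_one (σ := Fin (n + 1)) (R := ℕ)) a
  rw [h']
  obtain ⟨d, rfl⟩ : ∃ d, D = d + 1 := ⟨D - 1, by omega⟩
  rw [Nat.add_sub_cancel]
  ring

end Pool.CUBE
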