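import Pool.Agent.H38.CUBE.JJStmts2

/-!
# MP_47888e_al, block JJ part 2, module HIN: integrality and degrees of the numerators in `rr`
-/

set_option autoImplicit false

open Polynomial

namespace Pool.CUBE

open Pool.CM Pool.H93.Cube

namespace HIN

variable {E : Type} [Field E]

/-- polynomials with coefficients in a subring -/
def MO (n : ℕ) (O : Subring E) : Subring (MvPolynomial (Fin n) E) where
  carrier := {x | ∀ γ, MvPolynomial.coeff γ x ∈ O}
  mul_mem' := by
    classical
    intro x y hx hy γ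
    rw [MvPolynomial.coeff_mul]
    exact O.sum_mem fun c _ => O.mul_mem (hx _) (hy _)
  one_mem' := by
    classical
    intro γ
    rw [MvPolynomial.coeff_one]
    split_ifs
    · exact O.one_mem
    · exact O.zero_mem
  add_mem' := by
    intro x y hx hy γ
    rw [MvPolynomial.coeff_add]
    exact O.add_mem (hx _) (hy _)
  zero_mem' := by
    intro γ
    rw [MvPolynomial.coeff_zero]
    exact O.zero_mem
  neg_mem' := by
    intro x hx γ
    rw [MvPolynomial.coeff_neg]
    exact O.neg_mem (hx _)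

theorem X_mem (n : ℕ) (O : Subring E) (j : Fin n) : MvPolynomial.X j ∈ MO n O := by
  classical
  intro γ
  rw [MvPolynomial.coeff_X]
  split_ifs
  · exact O.one_mem
  · exact O.zero_mem

theorem cpt_mem (n : ℕ) (O : Subring E) (k : ℕ) : cpt E n k ∈ MO n O := by
  unfold cpt
  split_ifs
  · exact (MO n O).one_mem
  · exact X_mem n O _
  · exact (MO n O).zero_mem

theorem cpt_deg (n : ℕ) (k : ℕ) : (cpt E n k).totalDegree ≤ 1 := by
  unfold cpt
  split_ifs
  · rw [MvPolynomial.totalDegree_one]
    omega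
  · rw [MvPolynomial.totalDegree_X]
  · rw [MvPolynomial.totalDegree_zero]
    omega

theorem dif_deg (n : ℕ) (i : Fin (n + 1)) :
    (cpt E n i - cpt E n (i + 1)).totalDegree ≤ 1 :=
  (MvPolynomial.totalDegree_sub _ _).trans (max_le (cpt_deg n _) (cpt_deg n _))

theorem zc_X (n : ℕ) (i : Fin (n + 1)) :
    zc (MvPolynomial.X i : MvPolynomial (Fin (n + 1)) E) = cpt E n i - cpt E n (i + 1) := by
  unfold zc
  rw [MvPolynomial.aeval_X]

theorem zcX_mem (n : ℕ) (O : Subring E) (i : Fin (n + 1)) :
    zc (MvPolynomial.X i : MvPolynomial (Fin (n + 1)) E) ∈ MO n O := by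
  rw [zc_X]
  exact (MO n O).sub_mem (cpt_mem n O _) (cpt_mem n O _)

theorem zc_mon (n : ℕ) (a : Fin (n + 1) →₀ ℕ) :
    zc (MvPolynomial.monomial a (1 : E)) = ∏ i, zc (MvPolynomial.X i) ^ a i := by
  rw [MvPolynomial.monomial_eq, map_one, one_mul, Finsupp.prod_fintype _ _ (by simp), map_prod]
  exact Finset.prod_congr rfl fun i _ => map_pow _ _ _

theorem zcmon_mem (n : ℕ) (O : Subring E) (a : Fin (n + 1) →₀ ℕ) :
    zc (MvPolynomial.monomial a (1 : E)) ∈ MO n O := by
  rw [zc_mon]
  exact (MO n O).prod_mem fun i _ => (MO n O).pow_mem (zcX_mem n O i) _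

theorem zcmon_deg (n : ℕ) (a : Fin (n + 1) →₀ ℕ) :
    (zc (MvPolynomial.monomial a (1 : E))).totalDegree ≤ a.degree := by
  rw [zc_mon]
  refine (MvPolynomial.totalDegree_finsetProd _ _).trans ?_
  rw [Finsupp.degree_eq_sum]
  refine Finset.sum_le_sum fun i _ => ?_
  refine (MvPolynomial.totalDegree_pow _ _).trans ?_
  rw [zc_X]
  calc a i * (cpt E n i - cpt E n (i + 1)).totalDegree ≤ a i * 1 :=
        Nat.mul_le_mul_left _ (dif_deg n i)
    _ = a i := mul_one _

theorem zcfer_mem (n D : ℕ) (O : Subring E) : zc (Corner.fer n D E) ∈ MO n O := by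
  unfold Corner.fer
  rw [map_sum]
  refine (MO n O).sum_mem fun i _ => ?_
  rw [map_pow]
  exact (MO n O).pow_mem (zcX_mem n O i) _

theorem zcfer_deg (n D : ℕ) : (zc (Corner.fer n D E)).totalDegree ≤ D := by
  unfold Corner.fer
  rw [map_sum]
  refine MvPolynomial.totalDegree_finsetSum_le fun i _ => ?_
  rw [map_pow]
  refine (MvPolynomial.totalDegree_pow _ _).trans ?_
  rw [zc_X]
  calc D * (cpt E n i - cpt E n (i + 1)).totalDegree ≤ D * 1 :=
        Nat.mul_le_mul_left _ (dif_deg n i)
    _ = D := mul_one _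

theorem wpow_mem {n : ℕ} (O : Subring E) (w : Polynomial (MvPolynomial (Fin n) E))
    (hw : ∀ k, w.coeff k ∈ MO n O) (j : ℕ) : ∀ t, (w ^ j).coeff t ∈ MO n O := by
  induction j with
  | zero =>
    intro t
    rw [pow_zero, Polynomial.coeff_one]
    split_ifs
    · exact (MO n O).one_mem
    · exact (MO n O).zero_mem
  | succ j ih =>
    intro t
    rw [pow_succ, Polynomial.coeff_mul]
    exact (MO n O).sum_mem fun c _ => (MO n O).mul_mem (ih _) (hw _)

theorem wpow_deg {n : ℕ} (D : ℕ) (w : Polynomial (MvPolynomial (Fin n) E))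
    (hw : ∀ k, (w.coeff k).totalDegree ≤ D) (j : ℕ) : ∀ t, ((w ^ j).coeff t).totalDegree ≤ D * j := by
  induction j with
  | zero =>
    intro t
    rw [pow_zero, Polynomial.coeff_one]
    split_ifs
    · rw [MvPolynomial.totalDegree_one]
      omega
    · rw [MvPolynomial.totalDegree_zero]
      omega
  | succ j ih =>
    intro t
    rw [pow_succ, Polynomial.coeff_mul]
    refine MvPolynomial.totalDegree_finsetSum_le fun c _ => ?_
    refine (MvPolynomial.totalDegree_mul _ _).trans ?_
    have h1 := ih c.1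
    have h2 := hw c.2
    rw [Nat.mul_succ]
    omega

theorem w_ev {X : Idx} (A : PF X E) (hA : A.Ax) {n : ℕ}
    (w : Polynomial (MvPolynomial (Fin n) E)) :
    X.Ev fun i => ∀ k, w.coeff k ∈ MO n (A.O i) := by
  have h1 : X.Ev fun i => ∀ k ∈ w.support, ∀ γ ∈ (w.coeff k).support,
      MvPolynomial.coeff γ (w.coeff k) ∈ A.O i := by
    refine Idx.Ev.allFinset _ fun k _ => Idx.Ev.allFinset _ fun γ hγ => ?_
    exact (hA.pf2 _ (MvPolynomial.mem_support_iff.1 hγ)).mono fun i hi => hi.2.1
  refine h1.mono fun i hi k γ => ?_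
  by_cases h : MvPolynomial.coeff γ (w.coeff k) = 0
  · rw [h]
    exact (A.O i).zero_mem
  · refine hi k ?_ γ (MvPolynomial.mem_support_iff.2 h)
    rw [Polynomial.mem_support_iff]
    intro h0
    rw [h0] at h
    exact h (MvPolynomial.coeff_zero _)

end HIN

theorem hin_thm : Corner.HINStmt := by
  intro X E _ _ A hA n K
  refine (HIN.w_ev A hA K.w).mono fun i hi a l j t γ => ⟨?_, fun h => ?_⟩
  · have h1 : zc (MvPolynomial.monomial a 1 * Corner.fer n K.D E ^ l) * (K.w ^ j).coeff t ∈
        HIN.MO n (A.O i) := by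
      rw [map_mul, map_pow]
      exact (HIN.MO n (A.O i)).mul_mem ((HIN.MO n (A.O i)).mul_mem (HIN.zcmon_mem n _ a)
        ((HIN.MO n (A.O i)).pow_mem (HIN.zcfer_mem n K.D _) _)) (HIN.wpow_mem _ K.w hi j t)
    exact h1 γ
  · have h1 : (zc (MvPolynomial.monomial a 1 * Corner.fer n K.D E ^ l) *
        (K.w ^ j).coeff t).totalDegree ≤ a.degree + K.D * l + K.D * j := by
      refine (MvPolynomial.totalDegree_mul _ _).trans ?_
      refine add_le_add ?_ (HIN.wpow_deg K.D K.w (fun k => ?_) j t)
      · rw [map_mul, map_pow]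
        refine (MvPolynomial.totalDegree_mul _ _).trans ?_
        refine add_le_add (HIN.zcmon_deg n a) ?_
        refine (MvPolynomial.totalDegree_pow _ _).trans ?_
        rw [mul_comm K.D l]
        exact Nat.mul_le_mul_left _ (HIN.zcfer_deg n K.D)
      · have := K.hdeg k
        omega
    refine le_trans ?_ h1
    have h2 := MvPolynomial.le_totalDegree (MvPolynomial.mem_support_iff.2 h)
    exact h2

end Pool.CUBE
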